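import Mathlib
import Pool.Agent.H69.EF.Assembly
import Pool.Agent.H90.EF.Large
import Pool.Agent.H90.EF.NumThree

set_option autoImplicit false

open Finset

namespace Pool.Agent.Results.MP_4c8542_co.AllParameters

/-- The Erdős–Frankl conjecture holds for all `n ≥ d ≥ 0` and `k ≥ 1`: every family of subsets of
an `n`-set any `k` members of which have union of size at most `d` has at most
`max_{k i ≤ d} 2 ^ (d - k i) * Σ_{j ≤ i} C(n - d + k i, j)` members, and this is attained. -/
theorem result :
    ∀ n k d : ℕ, 0 < k → d ≤ n →
      IsGreatest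
        {m : ℕ | ∃ A : Finset (Finset (Fin n)),
          (∀ f : Fin k → Finset (Fin n), (∀ j, f j ∈ A) →
            (Finset.univ.biUnion f).card ≤ d) ∧ A.card = m}
        ((Finset.range (d / k + 1)).sup
          (fun i => 2 ^ (d - k * i) *
            ∑ j ∈ Finset.range (i + 1), (n - d + k * i).choose j)) := by
  intro n k d hk hdn
  exact Pool.Agent.H69.EF.erdos_frankl (fun t => Pool.Agent.H90.EF.num3 t)
    (fun k hk => Pool.Agent.H90.EF.fin_of_four_le hk) hk hdn

end Pool.Agent.Results.MP_4c8542_co.AllParameters
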